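import Mathlib
import Pool.Agent.H656.DFSF.Main

set_option autoImplicit false

/-!
MP_81321e_al, Q1 in characteristic zero: an elementary criterion, independent of `d` and `K`, for
the direct finiteness of the ring of `d` by `d` matrices over the monoid algebra `K[M]`.
-/

namespace Pool.Agent.Results.MP_81321e_al.LevelsCharZero

open Pool.Agent.H656.DFSF

universe u v w

/-- Let `M` be a monoid and consider the conditions
(1) for every idempotent `f` of `M`, the monoid `fMf` is directly finite (`pq = f` implies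
`qp = f`), and
(2) whenever `u₁v₁ = u₁`, `u₁v₂ = v₂`, `u₂v₁ = u₂`, `u₂v₂ = v₁` in `M`, one of `u₁`, `v₂` is
idempotent.
If `Mat_d(F[M])` is directly finite for some `d ≥ 1` and some field `F` (of any characteristic),
then (1) and (2) hold. If (1) and (2) hold, then `Mat_n(K[M])` is directly finite for all `n` and
all fields `K` of characteristic `0`. -/
theorem result (M : Type u) [Monoid M] :
    (∀ (F : Type v) [Field F] (d : ℕ), 1 ≤ d →
      (∀ a b : Matrix (Fin d) (Fin d) (MonoidAlgebra F M), a * b = 1 → b * a = 1) →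
      ((∀ f p q : M, f * f = f → f * p = p → p * f = p → f * q = q → q * f = q →
          p * q = f → q * p = f) ∧
        (∀ u₁ u₂ v₁ v₂ : M, u₁ * v₁ = u₁ → u₁ * v₂ = v₂ → u₂ * v₁ = u₂ → u₂ * v₂ = v₁ →
          u₁ * u₁ = u₁ ∨ v₂ * v₂ = v₂))) ∧
    (((∀ f p q : M, f * f = f → f * p = p → p * f = p → f * q = q → q * f = q →
          p * q = f → q * p = f) ∧
        (∀ u₁ u₂ v₁ v₂ : M, u₁ * v₁ = u₁ → u₁ * v₂ = v₂ → u₂ * v₁ = u₂ → u₂ * v₂ = v₁ →
          u₁ * u₁ = u₁ ∨ v₂ * v₂ = v₂)) →
      ∀ (K : Type w) [Field K] [CharZero K] (n : ℕ)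
        (a b : Matrix (Fin n) (Fin n) (MonoidAlgebra K M)), a * b = 1 → b * a = 1) := by
  constructor
  · intro F _ d hd h
    have h1 : ∀ a b : MonoidAlgebra F M, a * b = 1 → b * a = 1 := by
      intro a b hab
      have h2 : Matrix.scalar (Fin d) a * Matrix.scalar (Fin d) b = 1 := by
        rw [← map_mul, hab, map_one]
      have h3 := h _ _ h2
      rw [← map_mul] at h3
      have h4 := congrFun (congrFun h3 ⟨0, hd⟩) ⟨0, hd⟩
      simpa using h4
    have hS := star_of_df h1
    exact ⟨hS.s1, hS.s2⟩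
  · rintro ⟨h1, h2⟩ K _ _ n a b hab
    exact stably_finite_charZero ⟨h1, h2⟩ a b hab

end Pool.Agent.Results.MP_81321e_al.LevelsCharZero
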